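import Pool.Agent.Helper87.TC.Lib

/-!
Module `GENP` of `Pool.Agent.Helper87.TC`: general points of the vector space.
-/

set_option autoImplicit false

namespace Pool.Agent.Helper87.TC

open MvPolynomial Pool.Agent.Helper48.VMRT Pool.Agent.Helper87.VM

/-- A finite union of proper closed sets is proper. -/
theorem genp_proper {κ J : Type} [Finite J] {S : J → Set (κ → ℂ)} (h : ∀ j, ZClosed (S j))
    (hne : ∀ j, ∃ u, u ∉ S j) : ∃ u, ∀ j, u ∉ S j := by
  classical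
  cases nonempty_fintype J
  have h1 : ∀ j, ∃ p : MvPolynomial κ ℂ, p ≠ 0 ∧ ∀ x ∈ S j, eval x p = 0 := by
    intro j
    obtain ⟨u, hu⟩ := hne j
    by_contra hcon
    push Not at hcon
    apply hu
    refine zclosed_iff.1 (h j) u fun p hp => ?_
    by_contra hp0
    have hpne : p ≠ 0 := by
      rintro rfl
      simp at hp0
    obtain ⟨x, hx, hx0⟩ := hcon p hpne
    exact hx0 (mem_vI.1 hp x hx)
  choose p hp0 hp using h1
  have hprod : ∏ j, p j ≠ 0 := Finset.prod_ne_zero_iff.2 fun j _ => hp0 j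
  have h2 : ∃ u, eval u (∏ j, p j) ≠ 0 := by
    by_contra hcon
    push Not at hcon
    apply hprod
    apply MvPolynomial.funext
    intro x
    rw [hcon x, map_zero]
  obtain ⟨u, hu⟩ := h2
  refine ⟨u, fun j hj => hu ?_⟩
  rw [map_prod]
  exact Finset.prod_eq_zero (Finset.mem_univ j) (hp j u hj)

theorem genp_mem_TT {w : ℕ} {ν : Type} (F : ν → MvPolynomial (Option (Fin w)) ℂ)
    (z u : Fin w → ℂ) :
    u ∈ TT F z ↔ ∀ j, ∑ i, eval (ov 0 z) (pderiv (some i) (F j)) * u i = 0 := by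
  unfold TT
  rw [LinearMap.mem_ker, Matrix.mulVecLin_apply, funext_iff]
  exact Iff.rfl

/-- The equations of the tangent spaces as polynomials. -/
noncomputable def genp_B {w : ℕ} {ν : Type} (F : ν → MvPolynomial (Option (Fin w)) ℂ)
    (j : ν) (i : Fin w) : MvPolynomial (Fin w) ℂ :=
  aeval (fun o : Option (Fin w) => Option.elim o (0 : MvPolynomial (Fin w) ℂ) X)
    (pderiv (some i) (F j))

theorem genp_eval_B {w : ℕ} {ν : Type} (F : ν → MvPolynomial (Option (Fin w)) ℂ)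
    (j : ν) (i : Fin w) (z : Fin w → ℂ) :
    eval z (genp_B F j i) = eval (ov 0 z) (pderiv (some i) (F j)) := by
  unfold genp_B
  rw [eval_aeval]
  have h : ev (fun o : Option (Fin w) => Option.elim o (0 : MvPolynomial (Fin w) ℂ) X) z =
      ov 0 z := by
    funext o
    cases o with
    | none => simp [ev, ov]
    | some k => simp [ev, ov]
  rw [h]

theorem genp_hom_B {w : ℕ} {ν : Type} {a : ℕ} (ha : 1 ≤ a)
    (F : ν → MvPolynomial (Option (Fin w)) ℂ) (hF : ∀ j, HomE a (F j))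
    (j : ν) (i : Fin w) : HomE (a - 1) (genp_B F j i) := by
  intro c z
  rw [genp_eval_B, genp_eval_B]
  have h1 : HomE (a - 1 + 1) (F j) := by
    rw [Nat.sub_add_cancel ha]
    exact hF j
  have h2 : ov (0 : ℂ) (c • z) = c • ov 0 z := by
    rw [← ov_smul, mul_zero]
  rw [h2]
  exact homE_pderiv h1 (some i) c _

theorem genp_self {G ν : Type} [Group G] [Fintype ν] {w : ℕ} {Z : Set (Fin w → ℂ)}
    {ρ : G →* ((Fin w → ℂ) →ₗ[ℂ] (Fin w → ℂ))} {a : ℕ}
    {F : ν → MvPolynomial (Option (Fin w)) ℂ} {ρν : G →* ((ν → ℂ) →ₗ[ℂ] (ν → ℂ))}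
    (hfd : FD Z ρ a F ρν) {z : Fin w → ℂ} (hz : z ∈ Z) : z ∈ TT F z := by
  rw [genp_mem_TT]
  intro j
  have h1 := euler (hfd.hom j) (ov 0 z)
  have h2 : eval (ov 0 z) (F j) = 0 := (hfd.zero (ov 0 z)).2 ⟨rfl, hz⟩ j
  rw [h2, mul_zero] at h1
  unfold dpol at h1
  rw [Fintype.sum_option] at h1
  simpa using h1

/-- The set of pairs of a point and a tangent vector. -/
def genp_W {w : ℕ} {ν : Type} (F : ν → MvPolynomial (Option (Fin w)) ℂ)
    (Z : Set (Fin w → ℂ)) : Set (Fin w ⊕ Fin w → ℂ) :=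
  {x | (fun i => x (Sum.inl i)) ∈ Z ∧ (fun i => x (Sum.inr i)) ∈ TT F (fun i => x (Sum.inl i))}

theorem genp_W_closed {w : ℕ} {ν : Type} (F : ν → MvPolynomial (Option (Fin w)) ℂ)
    {Z : Set (Fin w → ℂ)} (hZ : ZClosed Z) : ZClosed (genp_W F Z) := by
  have h1 : ZClosed {x : Fin w ⊕ Fin w → ℂ | (fun i => x (Sum.inl i)) ∈ Z} := by
    have h := zclosed_preimage hZ (fun i => (X (Sum.inl i) : MvPolynomial (Fin w ⊕ Fin w) ℂ))
    have he : ∀ x : Fin w ⊕ Fin w → ℂ,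
        ev (fun i => (X (Sum.inl i) : MvPolynomial (Fin w ⊕ Fin w) ℂ)) x =
        fun i => x (Sum.inl i) := by
      intro x
      funext i
      simp [ev]
    simp only [he] at h
    exact h
  have h2 : ZClosed {x : Fin w ⊕ Fin w → ℂ |
      (fun i => x (Sum.inr i)) ∈ TT F (fun i => x (Sum.inl i))} := by
    apply zclosed_of_eqs (Set.range fun j : ν => ∑ i : Fin w,
      rename Sum.inl (genp_B F j i) * (X (Sum.inr i) : MvPolynomial (Fin w ⊕ Fin w) ℂ))
    intro x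
    rw [Set.forall_mem_range, Set.mem_ofPred_eq, genp_mem_TT]
    refine forall_congr' fun j => ?_
    rw [map_sum]
    have he : ∀ i : Fin w, eval x (rename Sum.inl (genp_B F j i) *
        (X (Sum.inr i) : MvPolynomial (Fin w ⊕ Fin w) ℂ)) =
        eval (ov 0 (fun i => x (Sum.inl i))) (pderiv (some i) (F j)) * x (Sum.inr i) := by
      intro i
      rw [map_mul, eval_X, eval_rename]
      have : x ∘ Sum.inl = fun i => x (Sum.inl i) := rfl
      rw [this, genp_eval_B]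
    simp only [he]
  exact zclosed_inter h1 h2

/-- `g ^ k` has no fixed vector. -/
theorem genp_fixed {D : VD} {M : ℕ} {g : D.G} (h : TD D M g) {k : ℕ} (hk : 0 < k)
    (hk2 : k < 2 ^ (M + 1)) {u : Fin D.w → ℂ} (hu : D.ρ (g ^ k) u = u) : u = 0 := by
  obtain ⟨a, b, hb, hab⟩ := Nat.exists_eq_two_pow_mul_odd hk.ne'
  have ha : a ≤ M := by
    by_contra hcon
    push Not at hcon
    have h1 : 2 ^ (M + 1) ≤ 2 ^ a := Nat.pow_le_pow_right (by norm_num) hcon
    have h2 : 2 ^ a ≤ k := by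
      rw [hab]
      exact Nat.le_mul_of_pos_right _ hb.pos
    omega
  have hiter : ∀ n : ℕ, D.ρ ((g ^ k) ^ n) u = u := by
    intro n
    induction n with
    | zero => simp
    | succ n ih =>
      rw [pow_succ, map_mul]
      change D.ρ ((g ^ k) ^ n) (D.ρ (g ^ k) u) = u
      rw [hu, ih]
  have hneg : ∀ n : ℕ, D.ρ ((g ^ (2 ^ M)) ^ n) u = (-1 : ℂ) ^ n • u := by
    intro n
    induction n with
    | zero => simp
    | succ n ih =>
      rw [pow_succ, map_mul]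
      change D.ρ ((g ^ (2 ^ M)) ^ n) (D.ρ (g ^ (2 ^ M)) u) = _
      rw [h.neg, map_neg, ih, pow_succ, mul_neg_one, neg_smul]
  have e1 : (g ^ k) ^ (2 ^ (M - a)) = (g ^ (2 ^ M)) ^ b := by
    rw [← pow_mul, ← pow_mul, hab]
    have : 2 ^ a * b * 2 ^ (M - a) = 2 ^ M * b := by
      have h3 : 2 ^ M = 2 ^ a * 2 ^ (M - a) := by
        rw [← pow_add, Nat.add_sub_cancel' ha]
      rw [h3]
      ring
    rw [this]
  have e2 := hiter (2 ^ (M - a))
  rw [e1, hneg b, hb.neg_one_pow, neg_one_smul] at e2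
  exact self_eq_neg.1 e2.symm

theorem genp_rho_inv (D : VD) (h : D.G) (x : Fin D.w → ℂ) : D.ρ h (D.ρ h⁻¹ x) = x := by
  have h1 : D.ρ (h * h⁻¹) x = x := by simp
  rw [map_mul] at h1
  exact h1

theorem genp_inv_rho (D : VD) (h : D.G) (x : Fin D.w → ℂ) : D.ρ h⁻¹ (D.ρ h x) = x := by
  have h1 : D.ρ (h⁻¹ * h) x = x := by simp
  rw [map_mul] at h1
  exact h1

/-- The action of a group element as a linear equivalence. -/
noncomputable def genp_E (D : VD) (h : D.G) : (Fin D.w → ℂ) ≃ₗ[ℂ] (Fin D.w → ℂ) :=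
  LinearEquiv.ofLinearMap (D.ρ h) (D.ρ h⁻¹)
    (LinearMap.ext fun x => genp_rho_inv D h x) (LinearMap.ext fun x => genp_inv_rho D h x)

theorem genp_zclosed_lin {κ κ' : Type} [Fintype κ] {S : Set (κ' → ℂ)} (hS : ZClosed S)
    (L : (κ → ℂ) →ₗ[ℂ] (κ' → ℂ)) : ZClosed {x | L x ∈ S} := by
  have h := zclosed_preimage hS
    (fun i => linp ((LinearMap.proj i).comp L : (κ → ℂ) →ₗ[ℂ] ℂ))
  have he : ∀ x : κ → ℂ,
      ev (fun i => linp ((LinearMap.proj i).comp L : (κ → ℂ) →ₗ[ℂ] ℂ)) x = L x := by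
    intro x
    rw [ev_linp]
  simp only [he] at h
  exact h

theorem st_GENP (h1 : ST_ELIM) (h2 : ST_DIMM) (h3 : ST_DIMT) (h4 : ST_TAND) : ST_GENP := by
  classical
  intro D M g htd hdis
  have hgood := htd.good
  have : Finite D.ι := htd.fin
  obtain ⟨i0⟩ := hgood.ine
  obtain ⟨z0, hz0, hz0ne⟩ := hgood.Zne i0
  have hz0Z : z0 ∈ D.Z := Set.mem_iUnion.2 ⟨i0, hz0⟩
  have hw : 1 ≤ D.w := by
    by_contra hcon
    have hw0 : D.w = 0 := by omega
    apply hz0ne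
    funext i
    exact absurd i.2 (by omega)
  have hZcone : ∀ a : ℂ, ∀ z ∈ D.Z, a • z ∈ D.Z := by
    intro a z hz
    obtain ⟨i, hi⟩ := Set.mem_iUnion.1 hz
    exact Set.mem_iUnion.2 ⟨i, hgood.Zcone i a z hi⟩
  obtain ⟨m, hm, hrel⟩ := h2 D.w D.ι D.Zi hgood.Zcl hgood.Zcone hgood.Zirr (by
    intro i j
    obtain ⟨h, hh⟩ := hgood.trans i j
    exact ⟨genp_E D h, hh⟩) hdis
  have hrel' : Rel m D.Z := hrel
  have hfd := hgood.fd
  have ha1 : 1 ≤ D.a := le_trans (by norm_num) hfd.two_le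
  have hT1dim := h3 D.G D.ν D.w D.Z D.ρ D.a D.F D.ρν m hfd hrel'
  -- the tangent variety
  set T1 : Set (Fin D.w → ℂ) := {u | ∃ z : Fin D.w → ℂ, z ≠ 0 ∧ Sum.elim z u ∈ genp_W D.F D.Z}
    with hT1
  have hmemW : ∀ z u : Fin D.w → ℂ, Sum.elim z u ∈ genp_W D.F D.Z ↔ z ∈ D.Z ∧ u ∈ TT D.F z := by
    intro z u
    exact Iff.rfl
  have hT1closed : ZClosed T1 := by
    apply h1 (Fin D.w) (Fin D.w) (genp_W D.F D.Z) (genp_W_closed D.F hgood.ZZcl)
    intro a z u hzu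
    rw [hmemW] at hzu ⊢
    refine ⟨hZcone a z hzu.1, ?_⟩
    rw [genp_mem_TT]
    intro j
    have hj := (genp_mem_TT D.F z u).1 hzu.2 j
    have he : ∀ i : Fin D.w, eval (ov 0 (a • z)) (pderiv (some i) (D.F j)) * u i =
        a ^ (D.a - 1) * (eval (ov 0 z) (pderiv (some i) (D.F j)) * u i) := by
      intro i
      rw [← genp_eval_B, ← genp_eval_B, genp_hom_B ha1 D.F hfd.hom j i a z]
      ring
    simp only [he]
    rw [← Finset.mul_sum, hj, mul_zero]
  have hT1cone : ∀ a : ℂ, ∀ u ∈ T1, a • u ∈ T1 := by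
    rintro a u ⟨z, hz, hzu⟩
    rw [hmemW] at hzu
    exact ⟨z, hz, (hmemW _ _).2 ⟨hzu.1, Submodule.smul_mem _ a hzu.2⟩⟩
  have hT1ne : ∃ u, u ∉ T1 := by
    obtain ⟨u, hu⟩ := h4 D.w m (D.a - 1) D.ν D.Z (genp_B D.F) hw hm hZcone hrel'
      (genp_hom_B ha1 D.F hfd.hom) (by
        intro z hz hz0
        have heq : (Matrix.of fun (j : D.ν) (i : Fin D.w) => eval z (genp_B D.F j i)) =
            Matrix.of fun (j : D.ν) (i : Fin D.w) =>
              eval (ov 0 z) (pderiv (some i) (D.F j)) := by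
          ext j i
          exact genp_eval_B D.F j i z
        rw [heq]
        exact hT1dim z hz hz0)
    refine ⟨u, ?_⟩
    rintro ⟨z, hz, hzu⟩
    rw [hmemW] at hzu
    obtain ⟨j, hj⟩ := hu z hzu.1 hz
    simp only [genp_eval_B] at hj
    exact hj ((genp_mem_TT D.F z u).1 hzu.2 j)
  have hZT1 : D.Z ⊆ T1 := by
    intro z hz
    by_cases hz1 : z = 0
    · rw [hz1]
      exact ⟨z0, hz0ne, (hmemW _ _).2 ⟨hz0Z, Submodule.zero_mem _⟩⟩
    · exact ⟨z, hz1, (hmemW _ _).2 ⟨hz, genp_self hfd hz⟩⟩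
  obtain ⟨v, hv⟩ := hT1ne
  have hvZ : v ∉ D.Z := fun hh => hv (hZT1 hh)
  -- the sets
  let L : ℕ → ((Fin D.w → ℂ) →ₗ[ℂ] (Fin D.w → ℂ)) := fun k => D.ρ (g ^ k) - LinearMap.id
  let S : Fin (2 ^ (M + 1)) → Set (Fin D.w → ℂ) := fun k =>
    if (k : ℕ) = 0 then T1 else {u | L (k : ℕ) u ∈ D.Z}
  have hSclosed : ∀ k, ZClosed (S k) := by
    intro k
    simp only [S]
    split_ifs with hk
    · exact hT1closed
    · exact genp_zclosed_lin hgood.ZZcl _
  have hScone : ∀ k, ∀ a : ℂ, ∀ u ∈ S k, a • u ∈ S k := by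
    intro k a u hu
    simp only [S] at hu ⊢
    split_ifs at hu ⊢ with hk
    · exact hT1cone a u hu
    · change L (k : ℕ) (a • u) ∈ D.Z
      rw [map_smul]
      exact hZcone a _ hu
  have hSne : ∀ k, ∃ u, u ∉ S k := by
    intro k
    simp only [S]
    split_ifs with hk
    · exact ⟨v, hv⟩
    · have hinj : Function.Injective (L (k : ℕ)) := by
        rw [← LinearMap.ker_eq_bot, LinearMap.ker_eq_bot']
        intro u hu
        apply genp_fixed htd (Nat.pos_of_ne_zero hk) k.2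
        change D.ρ (g ^ (k : ℕ)) u - u = 0 at hu
        exact sub_eq_zero.1 hu
      obtain ⟨u, hu⟩ := LinearMap.injective_iff_surjective.1 hinj v
      refine ⟨u, fun hh => hvZ ?_⟩
      rw [← hu]
      exact hh
  let A' : D.G × Fin (2 ^ (M + 1)) → Set (Fin D.w → ℂ) := fun p => {u | D.ρ p.1 u ∈ S p.2}
  have hA'closed : ∀ p, ZClosed (A' p) := fun p => genp_zclosed_lin (hSclosed p.2) (D.ρ p.1)
  refine ⟨⋃ p, A' p, zclosed_iUnion hA'closed, ?_, ?_, ?_, ?_⟩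
  · intro a u hu
    obtain ⟨p, hp⟩ := Set.mem_iUnion.1 hu
    refine Set.mem_iUnion.2 ⟨p, ?_⟩
    change D.ρ p.1 (a • u) ∈ S p.2
    rw [map_smul]
    exact hScone p.2 a _ hp
  · intro u hu
    obtain ⟨p, hp⟩ := Set.mem_iUnion.1 hu
    refine Set.mem_iUnion.2 ⟨(p.1 * g⁻¹, p.2), ?_⟩
    change D.ρ (p.1 * g⁻¹) (D.ρ g u) ∈ S p.2
    rw [map_mul]
    change D.ρ p.1 (D.ρ g⁻¹ (D.ρ g u)) ∈ S p.2
    rw [genp_inv_rho]
    exact hp
  · obtain ⟨u, hu⟩ := genp_proper hA'closed (by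
      intro p
      obtain ⟨u, hu⟩ := hSne p.2
      refine ⟨D.ρ p.1⁻¹ u, ?_⟩
      change D.ρ p.1 (D.ρ p.1⁻¹ u) ∉ S p.2
      rw [genp_rho_inv]
      exact hu)
    refine ⟨u, fun hh => ?_⟩
    obtain ⟨p, hp⟩ := Set.mem_iUnion.1 hh
    exact hu p hp
  · intro u hu
    have hu' : ∀ k, u ∉ S k := by
      intro k hk
      apply hu
      refine Set.mem_iUnion.2 ⟨(1, k), ?_⟩
      change D.ρ 1 u ∈ S k
      rw [map_one]
      exact hk
    refine ⟨?_, ?_⟩
    · intro z hz hz0 hzu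
      have h0 : 0 < 2 ^ (M + 1) := by positivity
      apply hu' ⟨0, h0⟩
      simp only [S, if_true]
      exact ⟨z, hz0, (hmemW _ _).2 ⟨hz, hzu⟩⟩
    · intro k hk hk2 hcon
      apply hu' ⟨k, hk2⟩
      simp only [S]
      rw [if_neg hk.ne']
      exact hcon

end Pool.Agent.Helper87.TC
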